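import Pool.Agent.W292.RG.Stm

/-! Project RG (helper292), part CLS, by helper988. -/

set_option autoImplicit false

namespace Pool.Agent.W988.RG

open Finset

theorem CLS : Pool.Agent.W292.RG.St_CLS := by
  intro V ι _ _ _ c X W hXW hinj h2
  classical
  set X₁ : Finset V := X.filter (fun s => ∃ y ∈ W, c y = c s) with hX₁
  have hsub : (X ∪ W).filter (fun x => ∃ y ∈ X ∪ W, y ≠ x ∧ c y = c x) ⊆ W ∪ X₁ := by
    intro x hx
    rw [Finset.mem_filter, Finset.mem_union] at hx
    obtain ⟨hx1, y, hy, hne, hc⟩ := hx
    rw [Finset.mem_union]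
    rcases hx1 with hx1 | hx1
    · right
      rw [hX₁, Finset.mem_filter]
      refine ⟨hx1, y, ?_, hc⟩
      rcases Finset.mem_union.mp hy with hy | hy
      · exact absurd (hinj y hy x hx1 hc) hne
      · exact hy
    · left; exact hx1
  have h3 : 2 * X₁.card ≤ W.card := by
    have hd : ∀ s ∈ X₁, ∀ t ∈ X₁, s ≠ t →
        Disjoint (W.filter (fun y => c y = c s)) (W.filter (fun y => c y = c t)) := by
      intro s hs t ht hst
      rw [Finset.disjoint_left]
      intro y hy hy'
      rw [Finset.mem_filter] at hy hy'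
      rw [hX₁, Finset.mem_filter] at hs ht
      exact hst (hinj s hs.1 t ht.1 (hy.2.symm.trans hy'.2))
    have hb : (X₁.biUnion (fun s => W.filter (fun y => c y = c s))).card ≤ W.card := by
      apply Finset.card_le_card
      intro y hy
      rw [Finset.mem_biUnion] at hy
      obtain ⟨s, _, hs⟩ := hy
      exact (Finset.mem_filter.mp hs).1
    rw [Finset.card_biUnion hd] at hb
    have hs : ∑ s ∈ X₁, 2 ≤ ∑ s ∈ X₁, (W.filter (fun y => c y = c s)).card := by
      apply Finset.sum_le_sum
      intro s hs
      rw [hX₁, Finset.mem_filter] at hs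
      exact h2 s hs.1 hs.2
    rw [Finset.sum_const, smul_eq_mul] at hs
    omega
  have h4 := (Finset.card_le_card hsub).trans (Finset.card_union_le W X₁)
  omega

end Pool.Agent.W988.RG
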